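import Mathlib

namespace Pool.Agent.Results.MP_f4a2a6_lc.No

open FirstOrder FirstOrder.Language

section
variable {L : FirstOrder.Language.{0, 0}} (N : Type) [L.Structure N] {a b : ℕ}
  (φ : L.Formula (Fin a ⊕ Fin b))

/-- the instances of φ at the parameters in p have a common realisation in N -/
def Cons (p : Set (Fin b → N)) : Prop := ∃ x : Fin a → N, ∀ y ∈ p, φ.Realize (Sum.elim x y)

def FHP : Prop := ∃ k : ℕ, 0 < k ∧ ∀ α : ℝ, 0 < α → ∃ β : ℝ, 0 < β ∧
  ∀ (n : ℕ) (S : Fin n → Fin b → N),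
    α * n.choose k ≤ {J : Finset (Fin n) | J.card = k ∧ Cons N φ (S '' J)}.ncard →
    ∃ J : Finset (Fin n), β * n ≤ J.card ∧ Cons N φ (S '' J)

def PolyBdd : Prop := ∃ d : ℕ, ∀ k : ℕ, ∃ C : ℝ, ∀ l, k ≤ l → ∀ A : Finset (Fin b → N), A.card = l →
  ∀ S : Finset (Finset (Fin b → N)), (∀ p ∈ S, p ⊆ A ∧ p.card = k ∧ Cons N φ p) →
    (∀ p ∈ S, ∀ q ∈ S, p ≠ q → ∃ y ∈ p, ∃ z ∈ q, ¬ Cons N φ {y, z}) → S.card ≤ C * l ^ d

end

def L2 : FirstOrder.Language.{0, 0} := ⟨fun _ => Empty, fun n => PLift (n = 2)⟩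

def M0 := (ℕ → ℕ ⊕ Bool) × ℕ × ℕ × Bool

def R (u v : M0) : Prop := u.1 v.2.1 = .inl v.2.2.1 ∨ u.1 v.2.1 = .inr v.2.2.2

instance : L2.Structure M0 where
  funMap f := Empty.elim f
  RelMap r v := R (v ⟨0, by rw [r.1]; decide⟩) (v ⟨1, by rw [r.1]; decide⟩)

def rl {α : Type} (x y : α) : L2.Formula α :=
  Relations.formula₂ (⟨rfl⟩ : L2.Relations 2) (.var x) (.var y)

def RN {N : Type} [L2.Structure N] (x y : N) : Prop :=
  Structure.RelMap (L := L2) (n := 2) ⟨rfl⟩ ![x, y]

theorem rl_real {N α : Type} [L2.Structure N] (x y : α) (v : α → N) :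
    (rl x y).Realize v ↔ RN (v x) (v y) := by simp [rl, RN]

theorem RN0 (x y : M0) : RN x y ↔ R x y := Iff.rfl

section
variable {N : Type} [L2.Structure N] (j : M0 ↪ₑ[L2] N)

theorem cov (y : N) : RN (j (fun _ => .inr true, 0, 0, true)) y ∨
    RN (j (fun _ => .inr false, 0, 0, true)) y := by
  have := (j.map_formula (Formula.iAlls Unit (rl (.inl true) (.inr ()) ⊔ rl (.inl false) (.inr ())))
    (fun s : Bool => ((fun _ => .inr s, 0, 0, true) : M0))).2 (by
      simp only [Formula.realize_iAlls, Formula.realize_sup, rl_real, RN0, R]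
      intro i
      cases h : (i ()).2.2.2 <;> simp [h])
  simp only [Formula.realize_iAlls, Formula.realize_sup, rl_real] at this
  exact this (fun _ => y)

theorem inc (u v : M0) (h : ∀ x, R x u → ¬ R x v) (x : N) : RN x (j u) → ¬ RN x (j v) := by
  have := (j.map_formula (Formula.iAlls Unit (rl (.inr ()) (.inl true) ⟹
    (rl (.inr ()) (.inl false)).not)) (fun s : Bool => cond s u v)).2 (by
      simp only [Formula.realize_iAlls, Formula.realize_imp, Formula.realize_not, rl_real, RN0]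
      exact fun i => h _)
  simp only [Formula.realize_iAlls, Formula.realize_imp, Formula.realize_not, rl_real] at this
  exact this (fun _ => x)

theorem up (u v : M0) (h : R u v) : RN (j u) (j v) :=
  (rl_real true false (j ∘ fun s => cond s u v)).1 ((j.map_formula _ _).2 ((rl_real _ _ _).2 h))

end

theorem result : ∃ (L : FirstOrder.Language.{0, 0}) (M : Type) (_ : L.Structure M) (a b : ℕ)
    (φ : L.Formula (Fin a ⊕ Fin b)), Infinite M ∧ ∀ (N : Type) (_ : L.Structure N),
      Nonempty (M ↪ₑ[L] N) → FHP N φ ∧ ¬ PolyBdd N φ := by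
  classical
  refine ⟨L2, M0, inferInstance, 1, 1, rl (.inl 0) (.inr 0),
    inferInstanceAs (Infinite (_ × _)), fun N _ ⟨j⟩ => ⟨⟨1, one_pos, fun _ _ =>
      ⟨1 / 2, by norm_num, fun n S _ => ?_⟩⟩, ?_⟩⟩
  · let J (s : Bool) := Finset.univ.filter fun i => RN (j (fun _ => .inr s, 0, 0, true)) (S i 0)
    have h : n ≤ (J true).card + (J false).card := by
      refine le_trans ?_ (Finset.card_union_le _ _)
      rw [Finset.eq_univ_of_forall (s := J true ∪ J false) (fun i => by simpa [J] using cov j _)]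
      simp
    obtain ⟨s, hs⟩ : ∃ s, n ≤ 2 * (J s).card := by
      by_contra c
      push Not at c
      have := c true
      have := c false
      omega
    refine ⟨J s, ?_, fun _ => j (fun _ => .inr s, 0, 0, true), ?_⟩
    · have : (n : ℝ) ≤ 2 * (J s).card := by exact_mod_cast hs
      linarith
    · rintro _ ⟨i, hi, rfl⟩
      exact (rl_real _ _ _).2 (Finset.mem_filter.1 hi).2
  · rintro ⟨d, h⟩
    obtain ⟨C, h⟩ := h ((d + 1) * 2)
    obtain ⟨m, hm⟩ := exists_nat_gt (max 0 (C * ((d + 1) * 2) ^ d))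
    have m0 : 0 < m := by exact_mod_cast (le_max_left _ _).trans_lt hm
    let e : (Fin (d + 1) × Bool) × Fin m → Fin 1 → N :=
      fun x _ => j (fun _ => .inl 0, x.1.1, x.2, x.1.2)
    have ei : Function.Injective e := by
      rintro ⟨⟨x1, x2⟩, x3⟩ ⟨⟨y1, y2⟩, y3⟩ a
      have := j.injective (congrFun a 0)
      have : ((x1 : ℕ), (x3 : ℕ), x2) = ((y1 : ℕ), (y3 : ℕ), y2) := congrArg Prod.snd this
      simp only [Prod.mk.injEq, Fin.val_inj] at this ⊢
      tauto
    let p (g : Fin (d + 1) → Fin m) := Finset.univ.image fun x : Fin (d + 1) × Bool => e (x, g x.1)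
    have c : ∀ g g', g ≠ g' → ∃ y ∈ p g, ∃ z ∈ p g', ¬ Cons N (rl (.inl 0) (.inr 0) :
        L2.Formula (Fin 1 ⊕ Fin 1)) {y, z} := by
      intro g g' a
      obtain ⟨i, a⟩ := Function.ne_iff.1 a
      refine ⟨_, Finset.mem_image_of_mem _ (Finset.mem_univ (i, true)), _,
        Finset.mem_image_of_mem _ (Finset.mem_univ (i, false)), fun ⟨x, hx⟩ => ?_⟩
      refine inc j _ _ ?_ (x 0) ((rl_real _ _ _).1 (hx _ (.inl rfl)))
        ((rl_real _ _ _).1 (hx _ (.inr rfl)))
      rintro u (b | b) (c | c) <;> simp_all [Fin.val_inj]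
    have k : ∀ g, Cons N (rl (.inl 0) (.inr 0) : L2.Formula (Fin 1 ⊕ Fin 1)) (p g) := fun g =>
      ⟨fun _ => j (fun i => .inl (if a : i < d + 1 then g ⟨i, a⟩ else 0), 0, 0, true), by
        intro y hy
        obtain ⟨x, -, rfl⟩ := Finset.mem_image.1 hy
        exact (rl_real _ _ _).2 (up j _ _ (.inl (by simp [x.1.2])))⟩
    have := h ((d + 1) * 2 * m) (Nat.le_mul_of_pos_right _ m0) (Finset.univ.image e)
      (by
        rw [Finset.card_image_of_injective _ ei, Finset.card_univ, Fintype.card_prod,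
          Fintype.card_prod, Fintype.card_fin, Fintype.card_fin, Fintype.card_bool]) (Finset.univ.image p) (by
        intro q hq
        obtain ⟨g, -, rfl⟩ := Finset.mem_image.1 hq
        refine ⟨fun y hy => ?_, ?_, k g⟩
        · obtain ⟨x, -, rfl⟩ := Finset.mem_image.1 hy
          exact Finset.mem_image_of_mem _ (Finset.mem_univ _)
        · rw [Finset.card_image_of_injective _ fun x y a => congrArg Prod.fst (ei a),
            Finset.card_univ, Fintype.card_prod, Fintype.card_fin, Fintype.card_bool]) (by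
        intro q hq q' hq' a
        obtain ⟨g, -, rfl⟩ := Finset.mem_image.1 hq
        obtain ⟨g', -, rfl⟩ := Finset.mem_image.1 hq'
        exact c g g' fun b => a (b ▸ rfl))
    rw [Finset.card_image_of_injective] at this
    · simp only [Finset.card_univ, Fintype.card_fun, Fintype.card_fin] at this
      push_cast at this
      rw [mul_pow, ← mul_assoc, pow_succ, mul_comm] at this
      have := le_of_mul_le_mul_right this (by positivity)
      exact absurd ((le_max_right _ _).trans_lt hm) (not_lt.2 this)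
    · intro g g' a
      by_contra b
      obtain ⟨y, hy, z, hz, n⟩ := c g g' b
      obtain ⟨x, hx⟩ := k g
      refine n ⟨x, ?_⟩
      rintro _ (rfl | rfl)
      · exact hx _ hy
      · exact hx _ (by rw [a]; exact hz)

end Pool.Agent.Results.MP_f4a2a6_lc.No
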